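import Mathlib

/-!
The group induced on the Fano plane of the seven conics of a Mathon 8-arc is never the full
automorphism group GL(3,2).
-/

namespace Pool.Agent.Results.MP_df3b73_co.NotFullGL

/-- The points of `PG(2, F)`. -/
abbrev PG (F : Type) [Field F] : Type := Projectivization F (Fin 3 → F)

/-- The parameters `(α, β, λ)` of a conic. -/
structure Par (F : Type) where
  /-- first coefficient -/
  α : F
  /-- second coefficient -/
  β : F
  /-- third coefficient -/
  l : F

section defs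

variable {F : Type} [Field F]

/-- The conic `α x² + x y + β y² + λ z² = 0`. -/
def conic (c : Par F) : Set (PG F) :=
  {P | ∃ (v : Fin 3 → F) (hv : v ≠ 0), P = Projectivization.mk F v hv ∧
    c.α * v 0 ^ 2 + v 0 * v 1 + c.β * v 1 ^ 2 + c.l * v 2 ^ 2 = 0}

/-- The point `(0, 0, 1)`. -/
def nucleus : PG F := Projectivization.mk F ![0, 0, 1] (fun h => by
  have := congrFun h 2
  simp at this)

/-- The sum `F ⊕ F'` of two conics. -/
def oplus (c c' : Par F) : Par F :=
  ⟨(c.α * c.l + c'.α * c'.l) / (c.l + c'.l), (c.β * c.l + c'.β * c'.l) / (c.l + c'.l),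
    c.l + c'.l⟩

/-- A closed set of seven conics over the field with `2 ^ h` elements: `Tr(α β) = 1` and `λ ≠ 0`
for its members, distinct members have distinct `λ`, and it contains `c ⊕ c'` for all distinct
members `c`, `c'`. -/
structure IsClosedSeven (h : ℕ) (C : Set (Par F)) : Prop where
  card : C.ncard = 7
  trace_eq_one : ∀ c ∈ C, ∑ i ∈ Finset.range h, (c.α * c.β) ^ 2 ^ i = 1
  ne_zero : ∀ c ∈ C, c.l ≠ 0
  inj : ∀ c ∈ C, ∀ c' ∈ C, c ≠ c' → c.l ≠ c'.l
  closed : ∀ c ∈ C, ∀ c' ∈ C, c ≠ c' → oplus c c' ∈ C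

/-- The point set of the arc: the points of the conics, and the nucleus. -/
def arc (C : Set (Par F)) : Set (PG F) := (⋃ c ∈ C, conic c) ∪ {nucleus}

/-- Collineations of `PG(2, F)`: the maps induced by bijective semilinear maps. -/
def IsCollineation (g : PG F → PG F) : Prop :=
  ∃ (σ : F ≃+* F) (f : (Fin 3 → F) →ₛₗ[(σ : F →+* F)] (Fin 3 → F)) (hf : Function.Bijective f),
    g = Projectivization.map f hf.injective

/-- The map of `PG(2, F)` induced by an invertible linear map. -/
def projectivity (φ : (Fin 3 → F) ≃ₗ[F] (Fin 3 → F)) : PG F → PG F :=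
  Projectivization.map φ.toLinearMap φ.injective

/-- The permutation `π` of the conics `φ(c)`, `c ∈ C`, of the arc `φ(arc C)` is induced by a
collineation stabilising the arc. -/
def IsInduced (C : Set (Par F)) (φ : (Fin 3 → F) ≃ₗ[F] (Fin 3 → F)) (π : Equiv.Perm C) : Prop :=
  ∃ g : PG F → PG F, IsCollineation g ∧
    g '' (projectivity φ '' arc C) = projectivity φ '' arc C ∧
    ∀ c : C, g '' (projectivity φ '' conic c.1) = projectivity φ '' conic (π c).1

/-- Automorphisms of the Fano plane of the conics: permutations preserving the sum `⊕` of distinct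
conics. -/
def IsFanoAut (C : Set (Par F)) (π : Equiv.Perm C) : Prop :=
  ∀ c c' c'' : C, c ≠ c' → c''.1 = oplus c.1 c'.1 → (π c'').1 = oplus (π c).1 (π c').1

end defs

section core

variable {F : Type} [Field F]

lemma mem_conic (c : Par F) (v : Fin 3 → F) (hv : v ≠ 0) :
    Projectivization.mk F v hv ∈ conic c ↔
      c.α * v 0 ^ 2 + v 0 * v 1 + c.β * v 1 ^ 2 + c.l * v 2 ^ 2 = 0 := by
  constructor
  · rintro ⟨w, hw, hP, h⟩
    rw [Projectivization.mk_eq_mk_iff'] at hP
    obtain ⟨t, rfl⟩ := hP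
    simp only [Pi.smul_apply, smul_eq_mul]
    linear_combination t ^ 2 * h
  · intro h
    exact ⟨v, hv, rfl, h⟩

lemma nucleus_not_mem (c : Par F) (hc : c.l ≠ 0) : nucleus ∉ conic c := by
  rw [nucleus, mem_conic]
  simpa using hc

variable [Finite F] [CharP F 2]

/-- The key computation. -/
lemma core (c c' : Par F) (hl : c.l ≠ 0) (σ : F ≃+* F)
    (f : (Fin 3 → F) →ₛₗ[(σ : F →+* F)] (Fin 3 → F)) (k : F) (hk : k ≠ 0)
    (h2 : f ![0, 0, 1] = k • ![0, 0, 1])
    (hC : ∀ v : Fin 3 → F, v ≠ 0 →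
      c.α * v 0 ^ 2 + v 0 * v 1 + c.β * v 1 ^ 2 + c.l * v 2 ^ 2 = 0 →
      c'.α * f v 0 ^ 2 + f v 0 * f v 1 + c'.β * f v 1 ^ 2 + c'.l * f v 2 ^ 2 = 0) :
    c'.l = ((f ![1, 0, 0] 0 * f ![0, 1, 0] 1 + f ![0, 1, 0] 0 * f ![1, 0, 0] 1) / k ^ 2) *
      σ c.l := by
  have two : (2 : F) = 0 := CharP.cast_eq_zero F 2 ▸ (by norm_num)
  have hsq : ∀ x : F, ∃ z, z ^ 2 = x := by
    intro x
    have hinj : Function.Injective (fun z : F => z ^ 2) := by
      intro a b hab
      have := frobenius_inj F 2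
      exact this hab
    exact (Finite.injective_iff_surjective.mp hinj) x
  have hv : ∀ x y z : F, f ![x, y, z] = σ x • f ![1, 0, 0] + σ y • f ![0, 1, 0] +
      (σ z * k) • ![0, 0, 1] := by
    intro x y z
    have e : (![x, y, z] : Fin 3 → F) = x • ![1, 0, 0] + y • ![0, 1, 0] + z • ![0, 0, 1] := by
      ext i; fin_cases i <;> simp
    rw [e, map_add, map_add, map_smulₛₗ, map_smulₛₗ, map_smulₛₗ, h2, smul_smul]
    rfl
  set a := f ![1, 0, 0] 0 with ha
  set c0 := f ![1, 0, 0] 1 with hc0
  set e := f ![1, 0, 0] 2 with he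
  set b := f ![0, 1, 0] 0 with hb
  set d := f ![0, 1, 0] 1 with hd
  set e' := f ![0, 1, 0] 2 with he'
  have hf0 : ∀ x y z : F, f ![x, y, z] 0 = σ x * a + σ y * b := by
    intro x y z
    rw [hv]
    simp [ha, hb]
  have hf1 : ∀ x y z : F, f ![x, y, z] 1 = σ x * c0 + σ y * d := by
    intro x y z
    rw [hv]
    simp [hc0, hd]
  have hf2 : ∀ x y z : F, f ![x, y, z] 2 = σ x * e + σ y * e' + σ z * k := by
    intro x y z
    rw [hv]
    simp [he, he']
  -- three points of the conic
  obtain ⟨z0, hz0⟩ := hsq (c.α / c.l)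
  obtain ⟨z1, hz1⟩ := hsq (c.β / c.l)
  obtain ⟨z2, hz2⟩ := hsq ((c.α + 1 + c.β) / c.l)
  have neg : ∀ x : F, x + x = 0 := fun x => by linear_combination x * two
  have p0 := hC ![1, 0, z0] (fun h => by have := congrFun h 0; simp at this) (by
    simp only [Matrix.cons_val_zero, Matrix.cons_val_one, Matrix.cons_val]
    rw [hz0]; field_simp
    linear_combination neg c.α)
  have p1 := hC ![0, 1, z1] (fun h => by have := congrFun h 1; simp at this) (by
    simp only [Matrix.cons_val_zero, Matrix.cons_val_one, Matrix.cons_val]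
    rw [hz1]; field_simp
    linear_combination neg c.β)
  have p2 := hC ![1, 1, z2] (fun h => by have := congrFun h 0; simp at this) (by
    simp only [Matrix.cons_val_zero, Matrix.cons_val_one, Matrix.cons_val]
    rw [hz2]; field_simp
    linear_combination neg (c.α + 1 + c.β))
  rw [hf0, hf1, hf2] at p0 p1 p2
  have s0 : σ z0 ^ 2 = σ c.α / σ c.l := by rw [← map_pow, hz0, map_div₀]
  have s1 : σ z1 ^ 2 = σ c.β / σ c.l := by rw [← map_pow, hz1, map_div₀]
  have s2 : σ z2 ^ 2 = (σ c.α + 1 + σ c.β) / σ c.l := by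
    rw [← map_pow, hz2, map_div₀, map_add, map_add, map_one]
  simp only [map_one, map_zero, zero_mul, one_mul, zero_add, add_zero] at p0 p1 p2
  have hsl : σ c.l ≠ 0 := by
    intro h
    exact hl ((map_eq_zero_iff σ σ.injective).mp h)
  have key : c'.l * k ^ 2 * (1 / σ c.l) = a * d + b * c0 := by
    have q0 : c'.α * a ^ 2 + a * c0 + c'.β * c0 ^ 2 + c'.l * (e ^ 2 + σ c.α / σ c.l * k ^ 2)
        = 0 := by
      rw [← s0]
      linear_combination p0 - c'.l * (e * σ z0 * k) * two
    have q1 : c'.α * b ^ 2 + b * d + c'.β * d ^ 2 + c'.l * (e' ^ 2 + σ c.β / σ c.l * k ^ 2)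
        = 0 := by
      rw [← s1]
      linear_combination p1 - c'.l * (e' * σ z1 * k) * two
    have q2 : c'.α * (a ^ 2 + b ^ 2) + (a + b) * (c0 + d) + c'.β * (c0 ^ 2 + d ^ 2) +
        c'.l * (e ^ 2 + e' ^ 2 + (σ c.α + 1 + σ c.β) / σ c.l * k ^ 2) = 0 := by
      rw [← s2]
      linear_combination p2 - c'.α * (a * b) * two - c'.β * (c0 * d) * two -
        c'.l * (e * e' + e * σ z2 * k + e' * σ z2 * k) * two
    have q3 : (a * d + b * c0) + c'.l * k ^ 2 * (1 / σ c.l) = 0 := by
      linear_combination q2 - q0 - q1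
    linear_combination q3 - neg (a * d + b * c0)
  field_simp at key ⊢
  linear_combination key

end core

section fieldAut

variable {F : Type} [Field F] [Finite F]

lemma aut_pow (σ : F ≃+* F) : ∃ m : ℤ, ∀ u : Fˣ, Units.map (σ : F →* F) u = u ^ m :=
  MonoidHom.map_cyclic _

lemma aut_comm (σ τ : F ≃+* F) (x : F) : σ (τ x) = τ (σ x) := by
  by_cases hx : x = 0
  · simp [hx]
  obtain ⟨m, hm⟩ := aut_pow σ
  obtain ⟨n, hn⟩ := aut_pow τ
  have h : Units.map (σ : F →* F) (Units.map (τ : F →* F) (Units.mk0 x hx)) =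
      Units.map (τ : F →* F) (Units.map (σ : F →* F) (Units.mk0 x hx)) := by
    rw [hm, hn, hm, hn, ← zpow_mul, ← zpow_mul, mul_comm]
  have := congrArg (fun u : Fˣ => (u : F)) h
  simpa using this

end fieldAut

section group

variable {F : Type} [Field F] [Finite F] [CharP F 2]

/-- The additive group formed by `0` and the `λ`s. -/
def lamGroup {h : ℕ} {C : Set (Par F)} (hC : IsClosedSeven h C) : AddSubgroup F where
  carrier := {x | x = 0 ∨ ∃ c ∈ C, c.l = x}
  zero_mem' := Or.inl rfl
  add_mem' := by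
    rintro x y (rfl | ⟨c, hc, rfl⟩) (rfl | ⟨c', hc', rfl⟩)
    · left; simp
    · right; exact ⟨c', hc', by simp⟩
    · right; exact ⟨c, hc, by simp⟩
    · by_cases hcc : c = c'
      · left
        rw [hcc]
        exact CharTwo.add_self_eq_zero _
      · right
        exact ⟨_, hC.closed c hc c' hc' hcc, rfl⟩
  neg_mem' := by
    rintro x (rfl | ⟨c, hc, rfl⟩)
    · left; simp
    · right
      exact ⟨c, hc, (CharTwo.neg_eq _).symm⟩

lemma card_lamGroup {h : ℕ} {C : Set (Par F)} (hC : IsClosedSeven h C) :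
    Nat.card (lamGroup hC) = 8 := by
  have e : ((lamGroup hC : AddSubgroup F) : Set F) = insert 0 ((fun c : Par F => c.l) '' C) := by
    ext x
    simp only [lamGroup, AddSubgroup.coe_set_mk, Set.mem_insert_iff, Set.mem_image]
    rfl
  have hfin : C.Finite := Set.finite_of_ncard_ne_zero (by rw [hC.card]; norm_num)
  change Nat.card ((lamGroup hC : AddSubgroup F) : Set F) = 8
  rw [Nat.card_coe_set_eq, e, Set.ncard_insert_of_notMem, Set.InjOn.ncard_image, hC.card]
  · intro c hc c' hc' hcc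
    by_contra hne
    exact hC.inj c hc c' hc' hne hcc
  · rintro ⟨c, hc, h0⟩
    exact hC.ne_zero c hc h0

/-- Coordinates on the group of the `λ`s. -/
lemma exists_coord {h : ℕ} {C : Set (Par F)} (hC : IsClosedSeven h C) :
    Nonempty ((Fin 3 → ZMod 2) ≃+ lamGroup hC) := by
  have h2 : ∀ x : lamGroup hC, 2 • x = 0 := by
    intro x
    apply Subtype.ext
    change 2 • (x : F) = 0
    rw [two_smul]
    exact CharTwo.add_self_eq_zero _
  let _ : Module (ZMod 2) (lamGroup hC) := AddCommGroup.zmodModule h2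
  have hcard := Module.natCard_eq_pow_finrank (K := ZMod 2) (V := lamGroup hC)
  rw [card_lamGroup, Nat.card_zmod] at hcard
  have hrank : Module.finrank (ZMod 2) (lamGroup hC) = 3 := by
    have : (2 : ℕ) ^ 3 = 2 ^ Module.finrank (ZMod 2) (lamGroup hC) := by
      rw [← hcard]; norm_num
    exact (Nat.pow_right_injective le_rfl this).symm
  exact ⟨((Module.finBasisOfFinrankEq (ZMod 2) _ hrank).equivFun.symm).toAddEquiv⟩

/-- The permutation of the conics given by an automorphism of the coordinates. -/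
lemma exists_perm {h : ℕ} {C : Set (Par F)} (hC : IsClosedSeven h C)
    (L : (Fin 3 → ZMod 2) ≃+ lamGroup hC) (M : (Fin 3 → ZMod 2) ≃+ (Fin 3 → ZMod 2)) :
    ∃ π : Equiv.Perm C, IsFanoAut C π ∧ ∀ (c : C) (u : Fin 3 → ZMod 2),
      ((L u : lamGroup hC) : F) = c.1.l → (π c).1.l = ((L (M u) : lamGroup hC) : F) := by
  have hfin : C.Finite := Set.finite_of_ncard_ne_zero (by rw [hC.card]; norm_num)
  have hfin' : Finite C := hfin
  -- coordinates of a conic
  have hco : ∀ c : C, ∃ u, ((L u : lamGroup hC) : F) = c.1.l := by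
    intro c
    refine ⟨L.symm ⟨c.1.l, Or.inr ⟨c.1, c.2, rfl⟩⟩, ?_⟩
    rw [L.apply_symm_apply]
  choose co hco' using hco
  have hex : ∀ c : C, ∃ c' : C, c'.1.l = ((L (M (co c)) : lamGroup hC) : F) := by
    intro c
    rcases (L (M (co c))).2 with h0 | ⟨c', hc', h1⟩
    · exfalso
      have h1 : L (M (co c)) = 0 := Subtype.ext h0
      have h2 : co c = 0 := by simpa using h1
      apply hC.ne_zero c.1 c.2
      rw [← hco' c, h2, map_zero]
      rfl
    · exact ⟨⟨c', hc'⟩, h1⟩
  choose pf hpf using hex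
  have hpinj : Function.Injective pf := by
    intro c c' hcc
    have h1 : ((L (M (co c)) : lamGroup hC) : F) = ((L (M (co c')) : lamGroup hC) : F) := by
      rw [← hpf, ← hpf, hcc]
    have h2 : co c = co c' := M.injective (L.injective (Subtype.ext h1))
    apply Subtype.ext
    by_contra hne
    apply hC.inj c.1 c.2 c'.1 c'.2 hne
    rw [← hco', ← hco', h2]
  have huniq : ∀ c c' : C, c.1.l = c'.1.l → c = c' := by
    intro c c' hcc
    apply Subtype.ext
    by_contra hne
    exact hC.inj c.1 c.2 c'.1 c'.2 hne hcc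
  refine ⟨Equiv.ofBijective pf (Finite.injective_iff_bijective.mp hpinj), ?_, ?_⟩
  · intro c c' c'' hne h1
    simp only [Equiv.ofBijective_apply]
    have hne' : (pf c).1 ≠ (pf c').1 := fun h => hne (hpinj (Subtype.ext h))
    have hmem := hC.closed (pf c).1 (pf c).2 (pf c').1 (pf c').2 hne'
    have : pf c'' = ⟨_, hmem⟩ := by
      apply huniq
      change (pf c'').1.l = (pf c).1.l + (pf c').1.l
      rw [hpf, hpf, hpf]
      have h2 : co c'' = co c + co c' := by
        apply L.injective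
        apply Subtype.ext
        rw [map_add]
        change ((L (co c'') : lamGroup hC) : F) = ((L (co c) : lamGroup hC) : F) +
          ((L (co c') : lamGroup hC) : F)
        rw [hco', hco', hco', h1]
        rfl
      rw [h2, map_add, map_add]
      rfl
    exact congrArg Subtype.val this
  · intro c u hu
    simp only [Equiv.ofBijective_apply]
    rw [hpf]
    have : co c = u := by
      apply L.injective
      apply Subtype.ext
      rw [hco', hu]
    rw [this]

end group

section final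

variable {F : Type} [Field F] [Finite F] [CharP F 2]

lemma induced_form {h : ℕ} {C : Set (Par F)} (hC : IsClosedSeven h C)
    (φ : (Fin 3 → F) ≃ₗ[F] (Fin 3 → F)) (π : Equiv.Perm C) (hπ : IsInduced C φ π) :
    ∃ (d : F) (σ : F ≃+* F), ∀ c : C, (π c).1.l = d * σ c.1.l := by
  obtain ⟨g, ⟨σ, f, hf, rfl⟩, harc, hcon⟩ := hπ
  haveI := RingHomInvPair.of_ringEquiv σ
  have hginj := Projectivization.map_injective (τ := (σ.symm : F →+* F)) f hf.injective
  have hφinj : Function.Injective (projectivity φ) :=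
    Projectivization.map_injective (τ := RingHom.id F) φ.toLinearMap φ.injective
  let f0 : (Fin 3 → F) →ₛₗ[(σ : F →+* F)] (Fin 3 → F) :=
    { toFun := fun v => φ.symm (f (φ v))
      map_add' := fun v w => by rw [map_add, map_add, map_add]
      map_smul' := fun a v => by rw [map_smul, map_smulₛₗ, map_smul] }
  have hf0 : ∀ v, φ (f0 v) = f (φ v) := fun v => φ.apply_symm_apply _
  -- if `φ Q = g (φ P)` then `f0 v` is a multiple of `w`
  have hrel : ∀ (v w : Fin 3 → F) (hv : v ≠ 0) (hw : w ≠ 0),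
      projectivity φ (Projectivization.mk F w hw) = Projectivization.map f hf.injective
        (projectivity φ (Projectivization.mk F v hv)) → ∃ t : F, t ≠ 0 ∧ f0 v = t • w := by
    intro v w hv hw heq
    rw [projectivity, Projectivization.map_mk, Projectivization.map_mk, Projectivization.map_mk,
      Projectivization.mk_eq_mk_iff'] at heq
    obtain ⟨t, ht⟩ := heq
    have ht0 : t ≠ 0 := by
      intro h0
      rw [h0, zero_smul] at ht
      exact hw ((LinearEquiv.map_eq_zero_iff φ).mp ht.symm)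
    refine ⟨t⁻¹, inv_ne_zero ht0, ?_⟩
    apply φ.injective
    rw [hf0, map_smul]
    have ht' : t • f (φ v) = φ w := ht
    rw [← ht', smul_smul, inv_mul_cancel₀ ht0, one_smul]
  have hne2 : (![0, 0, 1] : Fin 3 → F) ≠ 0 := fun h => by
    have := congrFun h 2
    simp at this
  -- the nucleus is fixed
  obtain ⟨k, hk, hk2⟩ : ∃ k : F, k ≠ 0 ∧ f0 ![0, 0, 1] = k • ![0, 0, 1] := by
    have h1 : Projectivization.map f hf.injective (projectivity φ nucleus) ∈
        projectivity φ '' arc C := by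
      rw [← harc]
      exact ⟨_, ⟨_, Or.inr rfl, rfl⟩, rfl⟩
    obtain ⟨Q, hQ, hQ'⟩ := h1
    rcases hQ with hQ | hQ
    · exfalso
      obtain ⟨c', hc', hQc⟩ := Set.mem_iUnion₂.mp hQ
      have h2 := hcon (π.symm ⟨c', hc'⟩)
      rw [π.apply_symm_apply] at h2
      have h3 : projectivity φ Q ∈ projectivity φ '' conic c' := ⟨Q, hQc, rfl⟩
      rw [← h2, hQ'] at h3
      obtain ⟨R', ⟨R, hR, rfl⟩, hR'⟩ := h3
      have h4 : R = nucleus := hφinj (hginj hR')
      rw [h4] at hR
      exact nucleus_not_mem _ (hC.ne_zero _ (π.symm ⟨c', hc'⟩).2) hR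
    · rw [Set.mem_singleton_iff.mp hQ] at hQ'
      exact hrel _ _ hne2 hne2 hQ'
  refine ⟨(f0 ![1, 0, 0] 0 * f0 ![0, 1, 0] 1 + f0 ![0, 1, 0] 0 * f0 ![1, 0, 0] 1) / k ^ 2, σ, ?_⟩
  intro c
  apply core c.1 (π c).1 (hC.ne_zero c.1 c.2) σ f0 k hk hk2
  intro v hv hv'
  have h1 : Projectivization.map f hf.injective (projectivity φ (Projectivization.mk F v hv)) ∈
      projectivity φ '' conic (π c).1 := by
    rw [← hcon c]
    exact ⟨_, ⟨_, (mem_conic _ v hv).mpr hv', rfl⟩, rfl⟩
  obtain ⟨Q, ⟨w, hw, rfl, hw'⟩, hQ⟩ := h1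
  obtain ⟨t, ht, ht'⟩ := hrel v w hv hw hQ
  rw [ht']
  simp only [Pi.smul_apply, smul_eq_mul]
  linear_combination t ^ 2 * hw'

/-- First elementary automorphism. -/
def M1 : (Fin 3 → ZMod 2) ≃+ (Fin 3 → ZMod 2) where
  toFun := fun u => ![u 0 + u 1, u 1, u 2]
  invFun := fun u => ![u 0 + u 1, u 1, u 2]
  left_inv := by unfold Function.LeftInverse; decide
  right_inv := by unfold Function.RightInverse Function.LeftInverse; decide
  map_add' := by decide

/-- Second elementary automorphism. -/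
def M2 : (Fin 3 → ZMod 2) ≃+ (Fin 3 → ZMod 2) where
  toFun := fun u => ![u 0, u 1 + u 2, u 2]
  invFun := fun u => ![u 0, u 1 + u 2, u 2]
  left_inv := by unfold Function.LeftInverse; decide
  right_inv := by unfold Function.RightInverse Function.LeftInverse; decide
  map_add' := by decide

end final

/-- **The induced group is never the whole of `GL(3,2)`.** For every closed set of seven conics
over the field with `2 ^ h` elements, and every projective image of the corresponding arc, some
automorphism of the Fano plane of the seven conics is not induced by a collineation stabilising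
the arc. -/
theorem result (h : ℕ) (F : Type) [Field F] (hF : Nat.card F = 2 ^ h) (C : Set (Par F))
    (hC : IsClosedSeven h C) (φ : (Fin 3 → F) ≃ₗ[F] (Fin 3 → F)) :
    ∃ π : Equiv.Perm C, IsFanoAut C π ∧ ¬ IsInduced C φ π := by
  have hfin : Finite F := Nat.finite_of_card_ne_zero (by rw [hF]; positivity)
  have := Fintype.ofFinite F
  have hchar : CharP F 2 := by
    have : Fact (Nat.Prime 2) := ⟨Nat.prime_two⟩
    rw [Nat.card_eq_fintype_card] at hF
    exact charP_of_card_eq_prime_pow hF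
  by_contra hcon
  push Not at hcon
  obtain ⟨L⟩ := exists_coord hC
  have key : ∀ M : (Fin 3 → ZMod 2) ≃+ (Fin 3 → ZMod 2), ∃ (d : F) (σ : F ≃+* F),
      ∀ u, u ≠ 0 → ((L (M u) : lamGroup hC) : F) = d * σ ((L u : lamGroup hC) : F) := by
    intro M
    obtain ⟨π, hπ, hπ'⟩ := exists_perm hC L M
    obtain ⟨d, σ, hd⟩ := induced_form hC φ π (hcon π hπ)
    refine ⟨d, σ, fun u hu => ?_⟩
    rcases (L u).2 with h0 | ⟨c, hc, h1⟩
    · exfalso
      apply hu
      have : L u = 0 := Subtype.ext h0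
      simpa using this
    · rw [← h1, ← hπ' ⟨c, hc⟩ u h1.symm, hd ⟨c, hc⟩]
  obtain ⟨d1, σ1, h1⟩ := key M1
  obtain ⟨d2, σ2, h2⟩ := key M2
  have hne : ∀ u, u ≠ 0 → ((L u : lamGroup hC) : F) ≠ 0 := by
    intro u hu h0
    apply hu
    have : L u = 0 := Subtype.ext h0
    simpa using this
  have e12 : ∀ u, u ≠ 0 → ((L (M1 (M2 u)) : lamGroup hC) : F) =
      (d1 * σ1 d2) * σ1 (σ2 ((L u : lamGroup hC) : F)) := by
    intro u hu
    rw [h1 _ (by simpa using hu), h2 u hu, map_mul]
    ring
  have e21 : ∀ u, u ≠ 0 → ((L (M2 (M1 u)) : lamGroup hC) : F) =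
      (d2 * σ2 d1) * σ1 (σ2 ((L u : lamGroup hC) : F)) := by
    intro u hu
    rw [h2 _ (by simpa using hu), h1 u hu, map_mul, aut_comm σ1 σ2]
    ring
  have hX : σ1 (σ2 ((L ![1, 0, 0] : lamGroup hC) : F)) ≠ 0 := by
    intro h0
    exact hne ![1, 0, 0] (by decide) ((map_eq_zero_iff σ2 σ2.injective).mp
      ((map_eq_zero_iff σ1 σ1.injective).mp h0))
  have hD : d1 * σ1 d2 = d2 * σ2 d1 := by
    apply mul_right_cancel₀ hX
    rw [← e12 _ (by decide), ← e21 _ (by decide)]
    have : M1 (M2 ![1, 0, 0]) = M2 (M1 ![1, 0, 0]) := by decide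
    rw [this]
  have h3 := e12 ![0, 0, 1] (by decide)
  rw [hD, ← e21 _ (by decide)] at h3
  have h4 := L.injective (Subtype.ext h3)
  exact absurd h4 (by decide)

end Pool.Agent.Results.MP_df3b73_co.NotFullGL
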